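import Mathlib

/-! Homomorphisms from `K_{5,5}` minus a Hamiltonian cycle into a bipartite graph. -/

namespace Pool.Agent.MP_344f7e_co

open Classical in
/-- the tuples `(x_1..x_5, y_1..y_5)` with `R x_i y_j` whenever `j - i ∈ {0, 1, 2}` mod 5 -/
noncomputable def homs {X Y : Type} [Fintype X] [Fintype Y] (R : X → Y → Prop) :
    Finset ((Fin 5 → X) × (Fin 5 → Y)) :=
  Finset.univ.filter fun p => ∀ i j : Fin 5, (j = i ∨ j = i + 1 ∨ j = i + 2) → R (p.1 i) (p.2 j)

open Classical in
/-- the pairs `(x, y)` with `R x y` -/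
noncomputable def edges {X Y : Type} [Fintype X] [Fintype Y] (R : X → Y → Prop) :
    Finset (X × Y) :=
  Finset.univ.filter fun e => R e.1 e.2

end Pool.Agent.MP_344f7e_co
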