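import Pool.Agent.MP_344f7e_co.Main

/-! The homomorphism density of `K_{5,5}` minus a Hamiltonian cycle in a bipartite graph of edge
density `α` is at least `α ^ (77 / 5)`. -/

namespace Pool.Agent.MP_344f7e_co.ExponentH17

open Pool.Agent.MP_344f7e_co Real

theorem exponent_bound (X Y : Type) [Fintype X] [Fintype Y] (R : X → Y → Prop) :
    ((homs R).card : ℝ) ≥
      (((edges R).card : ℝ) / ((Fintype.card X : ℝ) * (Fintype.card Y : ℝ))) ^ ((77 : ℝ) / 5) *
        (Fintype.card X : ℝ) ^ 5 * (Fintype.card Y : ℝ) ^ 5 := by
  rcases (edges R).eq_empty_or_nonempty with hE | hE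
  · rw [hE]
    simp only [Finset.card_empty, Nat.cast_zero, zero_div]
    rw [zero_rpow (by norm_num)]
    simp
  · have h := log_bound hE
    obtain ⟨e, he⟩ := hE
    have hX : (0 : ℝ) < Fintype.card X := by exact_mod_cast Fintype.card_pos_iff.2 ⟨e.1⟩
    have hY : (0 : ℝ) < Fintype.card Y := by exact_mod_cast Fintype.card_pos_iff.2 ⟨e.2⟩
    have hm : (0 : ℝ) < (edges R).card := by exact_mod_cast Finset.card_pos.2 ⟨e, he⟩
    have hT : (0 : ℝ) < (homs R).card := by
      have : (fun _ => e.1, fun _ => e.2) ∈ homs R := by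
        simp only [homs, Finset.mem_filter, Finset.mem_univ, true_and]
        intro _ _ _
        simpa [edges] using he
      exact_mod_cast Finset.card_pos.2 ⟨_, this⟩
    have hd : (0 : ℝ) < (edges R).card / ((Fintype.card X : ℝ) * (Fintype.card Y : ℝ)) := by
      positivity
    rw [ge_iff_le, ← log_le_log_iff (by positivity) hT, log_mul (by positivity) (by positivity),
      log_mul (by positivity) (by positivity), log_rpow hd, log_pow, log_pow,
      log_div hm.ne' (by positivity), log_mul hX.ne' hY.ne']
    push_cast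
    linarith

end Pool.Agent.MP_344f7e_co.ExponentH17
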