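import Mathlib
import Pool.Agent.MP_344f7e_co.Entropy
import Pool.Agent.MP_344f7e_co.Defs

/-! Two entropy constructions and their combination. -/

namespace Pool.Agent.MP_344f7e_co

open Finset Real Classical

variable {X Y : Type} [Fintype X] [Fintype Y] {R : X → Y → Prop}

theorem H_edge_le {Ω : Type} [Fintype Ω] {p : Ω → ℝ} (hp : IsP p) (z : Ω → X) (a : Ω → Y)
    (hs : ∀ ω, p ω ≠ 0 → R (z ω) (a ω)) :
    H p (fun ω => (z ω, a ω)) ≤ log (edges R).card :=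
  H_le_log_card hp _ _ fun ω h => by simpa [edges] using hs ω h

theorem H_pair_le {Ω : Type} [Fintype Ω] {p : Ω → ℝ} (hp : IsP p) (a b : Ω → Y) :
    H p (fun ω => (a ω, b ω)) ≤ 2 * log (Fintype.card Y) := by
  have := subadd hp a b (fun ω => (a ω, b ω)) (fun _ _ h h' => by rw [h, h'])
  linarith [H_le_log_fintype hp a, H_le_log_fintype hp b]

theorem step5 {Ω : Type} [Fintype Ω] {p : Ω → ℝ} (hp : IsP p) (z z' u w t : Ω → X)
    (a a' b c : Ω → Y)
    (hs : ∀ ω, p ω ≠ 0 → (R (z ω) (a ω) ∧ R (z ω) (b ω) ∧ R (z ω) (c ω) ∧ R (u ω) (a ω) ∧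
      R (u ω) (b ω) ∧ R (w ω) (a ω) ∧ R (w ω) (c ω) ∧ R (t ω) (a ω)) ∧
      R (z' ω) (a' ω) ∧ R (z' ω) (b ω) ∧ R (z' ω) (c ω) ∧ R (u ω) (a' ω) ∧ R (t ω) (a' ω)) :
    H p (fun ω => (a ω, b ω, c ω, u ω, w ω, t ω, a' ω, z' ω)) +
      H p (fun ω => (z ω, a ω, b ω, c ω, w ω, t ω)) - log (edges R).card -
      log (Fintype.card X) - log (Fintype.card Y) ≤ log (homs R).card := by
  let S : Ω → Y × Y × X × X := fun ω => (b ω, c ω, w ω, t ω)
  let k : Ω × Ω → (Fin 5 → X) × (Fin 5 → Y) := fun ω =>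
    (![u ω.1, z' ω.1, z ω.2, w ω.1, t ω.1], ![a ω.1, a' ω.1, b ω.1, c ω.1, a ω.2])
  have h1 := H_glue_le hp S (fun ω => (a ω, b ω, c ω, u ω, w ω, t ω, a' ω, z' ω))
    (fun ω => (z ω, a ω, b ω, c ω, w ω, t ω)) k
    (fun _ _ h => by simp only [S, Prod.mk.injEq] at h ⊢; tauto)
    (fun _ _ h => by simp only [S, Prod.mk.injEq] at h ⊢; tauto)
    (fun ω ω' e1 e2 h => by
      simp only [S, k, Prod.mk.injEq, Matrix.vecCons_inj] at e1 e2 h ⊢
      grind)
  have h2 : H (glue p S) k ≤ log (homs R).card := by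
    refine H_le_log_card (glue_isP hp S) _ _ fun ω h => ?_
    obtain ⟨a1, a2, a3⟩ := glue_supp h
    have b1 := hs _ a1
    have b2 := hs _ a2
    simp only [S, Prod.mk.injEq] at a3
    obtain ⟨e1, e2, e3, e4⟩ := a3
    rw [← e1, ← e2, ← e3, ← e4] at b2
    simp only [homs, mem_filter, mem_univ, true_and]
    intro i j hij
    fin_cases i <;> fin_cases j <;> simp [k] at hij ⊢ <;> tauto
  have h3 := subadd hp (fun ω => (w ω, c ω)) (fun ω => (t ω, b ω)) S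
    (fun _ _ h h' => by simp only [S, Prod.mk.injEq] at h h' ⊢; tauto)
  have h4 := H_edge_le (R := R) hp w c fun ω h => (hs ω h).1.2.2.2.2.2.2.1
  have h5 := subadd hp t b (fun ω => (t ω, b ω)) (fun _ _ h h' => by rw [h, h'])
  linarith [H_le_log_fintype hp t, H_le_log_fintype hp b]

theorem step4 {Ω : Type} [Fintype Ω] {p : Ω → ℝ} (hp : IsP p) (z u w t : Ω → X)
    (a b c : Ω → Y)
    (hs : ∀ ω, p ω ≠ 0 → R (z ω) (a ω) ∧ R (z ω) (b ω) ∧ R (z ω) (c ω) ∧ R (u ω) (a ω) ∧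
      R (u ω) (b ω) ∧ R (w ω) (a ω) ∧ R (w ω) (c ω) ∧ R (t ω) (a ω)) :
    H p (fun ω => (a ω, b ω, c ω, u ω, w ω, t ω)) +
      H p (fun ω => (z ω, a ω, b ω, c ω, u ω, t ω)) +
      H p (fun ω => (z ω, a ω, b ω, c ω, w ω, t ω)) - 2 * log (edges R).card -
      2 * log (Fintype.card X) - 2 * log (Fintype.card Y) ≤ log (homs R).card := by
  let S : Ω → Y × Y × X × X := fun ω => (b ω, c ω, u ω, t ω)
  have h0 := step5 (R := R) (glue_isP hp S) (fun ω => z ω.1) (fun ω => z ω.2) (fun ω => u ω.1)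
    (fun ω => w ω.1) (fun ω => t ω.1) (fun ω => a ω.1) (fun ω => a ω.2) (fun ω => b ω.1)
    (fun ω => c ω.1)
    (fun ω h => by
      obtain ⟨a1, a2, a3⟩ := glue_supp h
      have b2 := hs _ a2
      simp only [S, Prod.mk.injEq] at a3
      obtain ⟨e1, e2, e3, e4⟩ := a3
      rw [← e1, ← e2, ← e3, ← e4] at b2
      exact ⟨hs _ a1, by tauto⟩)
  have h1 := H_glue_le hp S (fun ω => (a ω, b ω, c ω, u ω, w ω, t ω))
    (fun ω => (z ω, a ω, b ω, c ω, u ω, t ω))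
    (fun ω => (a ω.1, b ω.1, c ω.1, u ω.1, w ω.1, t ω.1, a ω.2, z ω.2))
    (fun _ _ h => by simp only [S, Prod.mk.injEq] at h ⊢; tauto)
    (fun _ _ h => by simp only [S, Prod.mk.injEq] at h ⊢; tauto)
    (fun ω ω' e1 e2 h => by simp only [S, Prod.mk.injEq] at e1 e2 h ⊢; grind)
  have h2 := H_fst hp S fun ω => (z ω, a ω, b ω, c ω, w ω, t ω)
  have h3 := subadd hp (fun ω => (u ω, b ω)) (fun ω => (t ω, c ω)) S
    (fun _ _ h h' => by simp only [S, Prod.mk.injEq] at h h' ⊢; tauto)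
  have h4 := H_edge_le (R := R) hp u b fun ω h => (hs ω h).2.2.2.2.1
  have h5 := subadd hp t c (fun ω => (t ω, c ω)) (fun _ _ h h' => by rw [h, h'])
  linarith [H_le_log_fintype hp t, H_le_log_fintype hp c]

theorem step3 {Ω : Type} [Fintype Ω] {p : Ω → ℝ} (hp : IsP p) (z u w : Ω → X)
    (a b c : Ω → Y)
    (hs : ∀ ω, p ω ≠ 0 → R (z ω) (a ω) ∧ R (z ω) (b ω) ∧ R (z ω) (c ω) ∧ R (u ω) (a ω) ∧
      R (u ω) (b ω) ∧ R (w ω) (a ω) ∧ R (w ω) (c ω)) :
    H p (fun ω => (a ω, b ω, c ω, u ω, w ω)) + H p (fun ω => (z ω, a ω, b ω, c ω, u ω)) +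
      H p (fun ω => (z ω, a ω, b ω, c ω, w ω)) + 3 * H p (fun ω => (z ω, a ω)) -
      2 * log (edges R).card -
      2 * log (Fintype.card X) - 5 * log (Fintype.card Y) ≤ log (homs R).card := by
  have h0 := step4 (R := R) (glue_isP hp a) (fun ω => z ω.1) (fun ω => u ω.1)
    (fun ω => w ω.1) (fun ω => z ω.2) (fun ω => a ω.1) (fun ω => b ω.1) (fun ω => c ω.1)
    (fun ω h => by
      obtain ⟨a1, a2, a3⟩ := glue_supp h
      have b1 := hs _ a1
      have b2 := hs _ a2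
      rw [← a3] at b2
      tauto)
  have h1 := H_glue_le hp a (fun ω => (a ω, b ω, c ω, u ω, w ω)) (fun ω => (z ω, a ω))
    (fun ω => (a ω.1, b ω.1, c ω.1, u ω.1, w ω.1, z ω.2))
    (fun _ _ h => by simp only [Prod.mk.injEq] at h ⊢; tauto)
    (fun _ _ h => by simp only [Prod.mk.injEq] at h ⊢; tauto)
    (fun ω ω' e1 e2 h => by simp only [Prod.mk.injEq] at e1 e2 h ⊢; grind)
  have h2 := H_glue_le hp a (fun ω => (z ω, a ω, b ω, c ω, u ω)) (fun ω => (z ω, a ω))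
    (fun ω => (z ω.1, a ω.1, b ω.1, c ω.1, u ω.1, z ω.2))
    (fun _ _ h => by simp only [Prod.mk.injEq] at h ⊢; tauto)
    (fun _ _ h => by simp only [Prod.mk.injEq] at h ⊢; tauto)
    (fun ω ω' e1 e2 h => by simp only [Prod.mk.injEq] at e1 e2 h ⊢; grind)
  have h3 := H_glue_le hp a (fun ω => (z ω, a ω, b ω, c ω, w ω)) (fun ω => (z ω, a ω))
    (fun ω => (z ω.1, a ω.1, b ω.1, c ω.1, w ω.1, z ω.2))
    (fun _ _ h => by simp only [Prod.mk.injEq] at h ⊢; tauto)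
    (fun _ _ h => by simp only [Prod.mk.injEq] at h ⊢; tauto)
    (fun ω ω' e1 e2 h => by simp only [Prod.mk.injEq] at e1 e2 h ⊢; grind)
  linarith [H_le_log_fintype hp a]

theorem step2 {Ω : Type} [Fintype Ω] {p : Ω → ℝ} (hp : IsP p) (z u : Ω → X)
    (a b c : Ω → Y)
    (hs : ∀ ω, p ω ≠ 0 → R (z ω) (a ω) ∧ R (z ω) (b ω) ∧ R (z ω) (c ω) ∧ R (u ω) (a ω) ∧
      R (u ω) (b ω)) :
    H p (fun ω => (a ω, b ω, c ω, u ω)) + H p (fun ω => (z ω, a ω, b ω, c ω, u ω)) +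
      H p (fun ω => (z ω, a ω, b ω, c ω)) + 2 * H p (fun ω => (z ω, a ω, c ω)) +
      3 * H p (fun ω => (z ω, a ω)) - 2 * log (edges R).card -
      2 * log (Fintype.card X) - 9 * log (Fintype.card Y) ≤ log (homs R).card := by
  let S : Ω → Y × Y := fun ω => (a ω, c ω)
  have h0 := step3 (R := R) (glue_isP hp S) (fun ω => z ω.1) (fun ω => u ω.1)
    (fun ω => z ω.2) (fun ω => a ω.1) (fun ω => b ω.1) (fun ω => c ω.1)
    (fun ω h => by
      obtain ⟨a1, a2, a3⟩ := glue_supp h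
      have b1 := hs _ a1
      have b2 := hs _ a2
      simp only [S, Prod.mk.injEq] at a3
      rw [← a3.1, ← a3.2] at b2
      tauto)
  have h1 := H_glue_le hp S (fun ω => (a ω, b ω, c ω, u ω)) (fun ω => (z ω, a ω, c ω))
    (fun ω => (a ω.1, b ω.1, c ω.1, u ω.1, z ω.2))
    (fun _ _ h => by simp only [S, Prod.mk.injEq] at h ⊢; tauto)
    (fun _ _ h => by simp only [S, Prod.mk.injEq] at h ⊢; tauto)
    (fun ω ω' e1 e2 h => by simp only [S, Prod.mk.injEq] at e1 e2 h ⊢; grind)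
  have h2 := H_glue_le hp S (fun ω => (z ω, a ω, b ω, c ω)) (fun ω => (z ω, a ω, c ω))
    (fun ω => (z ω.1, a ω.1, b ω.1, c ω.1, z ω.2))
    (fun _ _ h => by simp only [S, Prod.mk.injEq] at h ⊢; tauto)
    (fun _ _ h => by simp only [S, Prod.mk.injEq] at h ⊢; tauto)
    (fun ω ω' e1 e2 h => by simp only [S, Prod.mk.injEq] at e1 e2 h ⊢; grind)
  have h3 := H_fst hp S fun ω => (z ω, a ω, b ω, c ω, u ω)
  have h4 := H_fst hp S fun ω => (z ω, a ω)
  linarith [H_pair_le hp a c]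

theorem step1 {Ω : Type} [Fintype Ω] {p : Ω → ℝ} (hp : IsP p) (z : Ω → X) (a b c : Ω → Y)
    (hs : ∀ ω, p ω ≠ 0 → R (z ω) (a ω) ∧ R (z ω) (b ω) ∧ R (z ω) (c ω)) :
    H p (fun ω => (a ω, b ω, c ω)) + 2 * H p (fun ω => (z ω, a ω, b ω, c ω)) +
      2 * H p (fun ω => (z ω, a ω, b ω)) + 2 * H p (fun ω => (z ω, a ω, c ω)) +
      3 * H p (fun ω => (z ω, a ω)) - 2 * log (edges R).card -
      2 * log (Fintype.card X) - 13 * log (Fintype.card Y) ≤ log (homs R).card := by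
  let S : Ω → Y × Y := fun ω => (a ω, b ω)
  have h0 := step2 (R := R) (glue_isP hp S) (fun ω => z ω.1) (fun ω => z ω.2)
    (fun ω => a ω.1) (fun ω => b ω.1) (fun ω => c ω.1)
    (fun ω h => by
      obtain ⟨a1, a2, a3⟩ := glue_supp h
      have b1 := hs _ a1
      have b2 := hs _ a2
      simp only [S, Prod.mk.injEq] at a3
      rw [← a3.1, ← a3.2] at b2
      tauto)
  have h1 := H_glue_le hp S (fun ω => (a ω, b ω, c ω)) (fun ω => (z ω, a ω, b ω))
    (fun ω => (a ω.1, b ω.1, c ω.1, z ω.2))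
    (fun _ _ h => by simp only [S, Prod.mk.injEq] at h ⊢; tauto)
    (fun _ _ h => by simp only [S, Prod.mk.injEq] at h ⊢; tauto)
    (fun ω ω' e1 e2 h => by simp only [S, Prod.mk.injEq] at e1 e2 h ⊢; grind)
  have h2 := H_glue_le hp S (fun ω => (z ω, a ω, b ω, c ω)) (fun ω => (z ω, a ω, b ω))
    (fun ω => (z ω.1, a ω.1, b ω.1, c ω.1, z ω.2))
    (fun _ _ h => by simp only [S, Prod.mk.injEq] at h ⊢; tauto)
    (fun _ _ h => by simp only [S, Prod.mk.injEq] at h ⊢; tauto)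
    (fun ω ω' e1 e2 h => by simp only [S, Prod.mk.injEq] at e1 e2 h ⊢; grind)
  have h3 := H_fst hp S fun ω => (z ω, a ω, b ω, c ω)
  have h4 := H_fst hp S fun ω => (z ω, a ω, c ω)
  have h5 := H_fst hp S fun ω => (z ω, a ω)
  linarith [H_pair_le hp a b]

/-- common neighbours of a triple -/
noncomputable def nb (R : X → Y → Prop) (t : Y × Y × Y) : Finset X :=
  univ.filter fun x => R x t.1 ∧ R x t.2.1 ∧ R x t.2.2

theorem card_homs : ((homs R).card : ℝ) =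
    ∑ y : Fin 5 → Y, ∏ i, ((nb R (y i, y (i + 1), y (i + 2))).card : ℝ) := by
  have : ∀ y : Fin 5 → Y, ∏ i, (nb R (y i, y (i + 1), y (i + 2))).card =
      ((homs R).filter fun q => q.2 = y).card := by
    intro y
    rw [← Fintype.card_piFinset]
    refine card_bij (fun x _ => (x, y)) (fun x hx => ?_) (fun _ _ _ _ h => (Prod.mk.inj h).1)
      fun q hq => ?_
    · simp only [Fintype.mem_piFinset, nb, mem_filter, mem_univ, true_and] at hx
      simp only [homs, mem_filter, mem_univ, true_and, and_true]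
      rintro i j (rfl | rfl | rfl)
      exacts [(hx _).1, (hx _).2.1, (hx _).2.2]
    · simp only [homs, mem_filter, mem_univ, true_and] at hq
      obtain ⟨h1, rfl⟩ := hq
      refine ⟨q.1, ?_, rfl⟩
      simp only [Fintype.mem_piFinset, nb, mem_filter, mem_univ, true_and]
      exact fun i => ⟨h1 _ _ (Or.inl rfl), h1 _ _ (Or.inr (Or.inl rfl)),
        h1 _ _ (Or.inr (Or.inr rfl))⟩
  rw [card_eq_sum_card_fiberwise (f := Prod.snd) (t := univ) fun _ _ => mem_univ _]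
  push_cast [← this]
  rfl

theorem star_bound {Ω : Type} [Fintype Ω] {p : Ω → ℝ} (hp : IsP p) (z : Ω → X)
    (y : Ω → Fin 5 → Y) (hs : ∀ ω, p ω ≠ 0 → ∀ i, R (z ω) (y ω i)) :
    H p y + ∑ i, (H p (fun ω => ((y ω i, y ω (i + 1), y ω (i + 2)), z ω)) -
      H p (fun ω => (y ω i, y ω (i + 1), y ω (i + 2)))) ≤ log (homs R).card := by
  have hm : ∀ ω, p ω ≠ 0 → ∀ i, z ω ∈ nb R (y ω i, y ω (i + 1), y ω (i + 2)) := fun ω h i => by
    simp [nb, hs ω h]
  have hc : ∀ ω, p ω ≠ 0 → ∀ i, (0 : ℝ) < (nb R (y ω i, y ω (i + 1), y ω (i + 2))).card :=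
    fun ω h i => by exact_mod_cast card_pos.2 ⟨_, hm ω h i⟩
  have h1 := gibbs hp y univ (fun y => ∏ i, ((nb R (y i, y (i + 1), y (i + 2))).card : ℝ))
    (fun _ _ => prod_nonneg fun _ _ => Nat.cast_nonneg _)
    fun ω h => ⟨mem_univ _, prod_pos fun i _ => hc ω h i⟩
  rw [← card_homs] at h1
  have h2 : ∑ ω, p ω * log (∏ i, ((nb R (y ω i, y ω (i + 1), y ω (i + 2))).card : ℝ)) =
      ∑ i, ∑ ω, p ω * log ((nb R (y ω i, y ω (i + 1), y ω (i + 2))).card : ℝ) := by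
    rw [sum_comm]
    refine sum_congr rfl fun ω _ => ?_
    by_cases h : p ω = 0
    · simp [h]
    · rw [log_prod fun i _ => (hc ω h i).ne', mul_sum]
  rw [h2] at h1
  refine le_trans (add_le_add_right (sum_le_sum fun i _ => ?_) _) h1
  have := H_cond_le hp (fun ω => (y ω i, y ω (i + 1), y ω (i + 2))) z (nb R) fun ω h => hm ω h i
  linarith

theorem drop_leaf {Ω β γ : Type} [Fintype Ω] {p : Ω → ℝ} (hp : IsP p) (z : Ω → X) (a : Ω → Y)
    (V : Ω → β) (W : Ω → γ) (hs : ∀ ω, p ω ≠ 0 → R (z ω) (a ω))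
    (h1 : ∀ ω ω', V ω = V ω' → z ω = z ω')
    (h2 : ∀ ω ω', V ω = V ω' → a ω = a ω' → W ω = W ω') :
    H p W + H p z - log (edges R).card ≤ H p V := by
  have h3 := submod hp V (fun ω => (z ω, a ω)) W z h1 (fun _ _ h => (Prod.mk.inj h).1)
    fun ω ω' h h' => h2 ω ω' h (Prod.mk.inj h').2
  linarith [H_edge_le (R := R) hp z a hs]

theorem tri_bound {Ω : Type} [Fintype Ω] {p : Ω → ℝ} (hp : IsP p) (z : Ω → X)
    (y : Ω → Fin 5 → Y) (hs : ∀ ω, p ω ≠ 0 → ∀ i, R (z ω) (y ω i))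
    (h5 : 5 * log (edges R).card - 4 * H p z ≤ H p fun ω => (z ω, y ω)) (i : Fin 5) :
    3 * log (edges R).card - 2 * H p z ≤
      H p (fun ω => ((y ω i, y ω (i + 1), y ω (i + 2)), z ω)) ∧
    15 * log (edges R).card - 10 * log (Fintype.card X) - 13 * log (Fintype.card Y) +
      H p (fun ω => (y ω i, y ω (i + 1), y ω (i + 2))) ≤ log (homs R).card := by
  have d1 := drop_leaf (R := R) hp z (fun ω => y ω (i + 4))
    (fun ω => (z ω, y ω i, y ω (i + 1), y ω (i + 2), y ω (i + 3))) (fun ω => (z ω, y ω))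
    (fun ω h => hs ω h _) (fun _ _ h => (Prod.mk.inj h).1) (fun ω ω' h h' => by
      simp only [Prod.mk.injEq] at h ⊢
      refine ⟨h.1, funext fun j => ?_⟩
      have : j = i ∨ j = i + 1 ∨ j = i + 2 ∨ j = i + 3 ∨ j = i + 4 :=
        (by decide : ∀ i j : Fin 5, j = i ∨ j = i + 1 ∨ j = i + 2 ∨ j = i + 3 ∨ j = i + 4) i j
      rcases this with rfl | rfl | rfl | rfl | rfl <;> tauto)
  have d2 := drop_leaf (R := R) hp z (fun ω => y ω (i + 3))
    (fun ω => (z ω, y ω i, y ω (i + 1), y ω (i + 2)))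
    (fun ω => (z ω, y ω i, y ω (i + 1), y ω (i + 2), y ω (i + 3)))
    (fun ω h => hs ω h _) (fun _ _ h => (Prod.mk.inj h).1)
    (fun ω ω' h h' => by simp only [Prod.mk.injEq] at h ⊢; tauto)
  have d3 := drop_leaf (R := R) hp z (fun ω => y ω (i + 2))
    (fun ω => (z ω, y ω i, y ω (i + 1))) (fun ω => (z ω, y ω i, y ω (i + 1), y ω (i + 2)))
    (fun ω h => hs ω h _) (fun _ _ h => (Prod.mk.inj h).1)
    (fun ω ω' h h' => by simp only [Prod.mk.injEq] at h ⊢; tauto)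
  have d4 := drop_leaf (R := R) hp z (fun ω => y ω (i + 1))
    (fun ω => (z ω, y ω i, y ω (i + 2))) (fun ω => (z ω, y ω i, y ω (i + 1), y ω (i + 2)))
    (fun ω h => hs ω h _) (fun _ _ h => (Prod.mk.inj h).1)
    (fun ω ω' h h' => by simp only [Prod.mk.injEq] at h ⊢; tauto)
  have d7 := drop_leaf (R := R) hp z (fun ω => y ω (i + 1))
    (fun ω => (z ω, y ω i)) (fun ω => (z ω, y ω i, y ω (i + 1)))
    (fun ω h => hs ω h _) (fun _ _ h => (Prod.mk.inj h).1)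
    (fun ω ω' h h' => by simp only [Prod.mk.injEq] at h ⊢; tauto)
  have d8 := H_le_log_fintype hp z
  have d5 := step1 (R := R) hp z (fun ω => y ω i) (fun ω => y ω (i + 1)) (fun ω => y ω (i + 2))
    fun ω h => ⟨hs ω h _, hs ω h _, hs ω h _⟩
  have d6 : H p (fun ω => (z ω, y ω i, y ω (i + 1), y ω (i + 2))) ≤
      H p (fun ω => ((y ω i, y ω (i + 1), y ω (i + 2)), z ω)) :=
    H_mono hp fun _ _ _ _ h => by simp only [Prod.mk.injEq] at h ⊢; tauto
  constructor <;> linarith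

theorem comb {Ω : Type} [Fintype Ω] {p : Ω → ℝ} (hp : IsP p) (z : Ω → X)
    (y : Ω → Fin 5 → Y) (hs : ∀ ω, p ω ≠ 0 → ∀ i, R (z ω) (y ω i))
    (h5 : 5 * log (edges R).card - 4 * H p z ≤ H p fun ω => (z ω, y ω)) :
    77 * log (edges R).card - 52 * log (Fintype.card X) - 52 * log (Fintype.card Y) ≤
      5 * log (homs R).card := by
  have h1 := star_bound hp z y hs
  rw [Fin.sum_univ_five] at h1
  have h2 := submod hp y (fun ω => ((y ω 4, y ω (4 + 1), y ω (4 + 2)), z ω))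
    (fun ω => (z ω, y ω)) (fun ω => (y ω 4, y ω (4 + 1), y ω (4 + 2)))
    (fun _ _ h => by rw [h]) (fun _ _ h => (Prod.mk.inj h).1)
    (fun _ _ h h' => by rw [h, (Prod.mk.inj h').2])
  have t0 := tri_bound hp z y hs h5 0
  have t1 := tri_bound hp z y hs h5 1
  have t2 := tri_bound hp z y hs h5 2
  have t3 := tri_bound hp z y hs h5 3
  linarith [H_le_log_fintype hp z, t0.1, t0.2, t1.1, t1.2, t2.1, t2.2, t3.1, t3.2]

theorem log_bound (hE : (edges R).Nonempty) :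
    77 * log (edges R).card - 52 * log (Fintype.card X) - 52 * log (Fintype.card Y) ≤
      5 * log (homs R).card := by
  have hpos : (0 : ℝ) < (edges R).card := by exact_mod_cast hE.card_pos
  let p : X × Y → ℝ := fun e => if e ∈ edges R then 1 / (edges R).card else 0
  have hp : IsP p := ⟨fun e => by simp only [p]; split_ifs <;> positivity, by
    simp only [p]
    rw [sum_ite_mem, univ_inter, sum_const, nsmul_eq_mul, mul_one_div_cancel hpos.ne']⟩
  have hsupp : ∀ e, p e ≠ 0 → R e.1 e.2 := fun e h => by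
    by_contra hn
    exact h (if_neg (by simpa [edges] using hn))
  have h0 : H p (fun e => e) = log (edges R).card := by
    have : ∀ e, p e * log (pr p (fun e => e) e) = p e * (-log (edges R).card) := by
      intro e
      by_cases h : e ∈ edges R
      · have : pr p (fun e => e) e = 1 / (edges R).card := by simp [pr, p, h]
        rw [this, one_div, log_inv]
      · simp [p, h]
    simp only [H, this]
    rw [← sum_mul, hp.sum]
    ring
  have hp1 := glue_isP hp Prod.fst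
  have hp2 := glue_isP hp1 fun ω => ω.1.1
  have hp3 := glue_isP hp2 fun ω => ω.1.1.1
  have z1 := H_fst hp Prod.fst Prod.fst
  have z2 := H_fst hp1 (fun ω => ω.1.1) fun ω => ω.1.1
  have z3 := H_fst hp2 (fun ω => ω.1.1.1) fun ω => ω.1.1.1
  have e1 := H_fst hp Prod.fst fun e => e
  have e2 := H_fst hp1 (fun ω => ω.1.1) fun ω => ω.1
  have s2 := H_glue_le hp Prod.fst (fun e => e) (fun e => e) (fun ω => (ω.1.1, ω.1.2, ω.2.2))
    (fun _ _ h => by rw [h]) (fun _ _ h => by rw [h])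
    (fun ω ω' e1 e2 h => by simp only [Prod.ext_iff] at h ⊢; grind)
  have s4 := H_glue_le hp1 (fun ω => ω.1.1) (fun ω => (ω.1.1, ω.1.2, ω.2.2))
    (fun ω => (ω.1.1, ω.1.2, ω.2.2)) (fun ω => (ω.1.1.1, ω.1.1.2, ω.1.2.2, ω.2.1.2, ω.2.2.2))
    (fun _ _ h => (Prod.mk.inj h).1) (fun _ _ h => (Prod.mk.inj h).1)
    (fun ω ω' e1 e2 h => by simp only [Prod.mk.injEq] at h ⊢; grind)
  have s5 := H_glue_le hp2 (fun ω => ω.1.1.1)
    (fun ω => (ω.1.1.1, ω.1.1.2, ω.1.2.2, ω.2.1.2, ω.2.2.2)) (fun ω => ω.1.1)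
    (fun ω => (ω.1.1.1.1, ![ω.1.1.1.2, ω.1.1.2.2, ω.1.2.1.2, ω.1.2.2.2, ω.2.1.1.2]))
    (fun _ _ h => (Prod.mk.inj h).1) (fun _ _ h => by rw [h])
    (fun ω ω' e1 e2 h => by
      simp only [Prod.mk.injEq, Matrix.vecCons_inj] at h ⊢
      simp only [Prod.ext_iff]
      grind)
  refine comb hp3 (fun ω => ω.1.1.1.1)
    (fun ω => ![ω.1.1.1.2, ω.1.1.2.2, ω.1.2.1.2, ω.1.2.2.2, ω.2.1.1.2]) (fun ω h i => ?_)
    (by linarith)
  obtain ⟨a1, a2, a3⟩ := glue_supp h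
  obtain ⟨b1, b2, b3⟩ := glue_supp a1
  obtain ⟨c1, -, -⟩ := glue_supp a2
  obtain ⟨d1, d2, d3⟩ := glue_supp b1
  obtain ⟨f1, f2, f3⟩ := glue_supp b2
  obtain ⟨g1, -, -⟩ := glue_supp c1
  have r1 := hsupp _ d1
  have r2 := hsupp _ d2
  have r3 := hsupp _ f1
  have r4 := hsupp _ f2
  have r5 := hsupp _ g1
  rw [← d3] at r2
  rw [← f3, ← b3] at r4
  rw [← b3] at r3
  rw [← a3] at r5
  fin_cases i
  exacts [r1, r2, r3, r4, r5]

end Pool.Agent.MP_344f7e_co
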